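import Pool.Agent.Q26.PL.L

/-!
# Decimal palindromes with at most four prime factors in every reduced residue class, with the right order of magnitude
-/

set_option autoImplicit false

namespace Pool.Agent.Results.MP_540de1_nt.FourFactorsProgressions

open Finset Filter

/-- Let `M ≥ 1` and let `a` be prime to `M` (`M` may be divisible by `2` or `5`). There is `c > 0` such that
(1) for all large `N` at least `c * 10^N / N` of the `n` with `10^(2N) ≤ n < 10^(2N+1)` whose decimal digit sequence equals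
its own reverse are congruent to `a` modulo `M` and have at most four prime factors counted with multiplicity, each of them
larger than `10^(N/13)`; (2) for all large `x` at least `c #P(x) / log x` of the decimal palindromes `n ≤ x` are congruent to
`a` modulo `M` and have at most four prime factors, each of them larger than `x^(1/30)`; `#P(x)` is the number of all decimal
palindromes `1 ≤ n ≤ x`. -/

theorem result (M a : ℕ) (hM : 0 < M) (ha : a.Coprime M) : ∃ c : ℝ, 0 < c ∧
    (∀ᶠ N : ℕ in atTop, c * (10 : ℝ) ^ N / N ≤ (((range (10 ^ (2 * N + 1))).filter (fun n => 10 ^ (2 * N) ≤ n ∧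
      (Nat.digits 10 n).reverse = Nat.digits 10 n ∧ n ≡ a [MOD M] ∧ n.primeFactorsList.length ≤ 4 ∧
      ∀ p ∈ n.primeFactorsList, (10 : ℝ) ^ ((N : ℝ) / 13) < p)).card : ℝ)) ∧
    (∀ᶠ x : ℕ in atTop,
      c * (((Icc 1 x).filter (fun n => (Nat.digits 10 n).reverse = Nat.digits 10 n)).card : ℝ) / Real.log x ≤
      (((Icc 1 x).filter (fun n => (Nat.digits 10 n).reverse = Nat.digits 10 n ∧ n ≡ a [MOD M] ∧
        n.primeFactorsList.length ≤ 4 ∧ ∀ p ∈ n.primeFactorsList, (x : ℝ) ^ (1 / 30 : ℝ) < p)).card : ℝ)) := by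
  obtain ⟨c₁, hc1, h1⟩ := Pool.Agent.Q26.PL.four10 hM ha
  obtain ⟨c₂, hc2, h2⟩ := Pool.Agent.Q26.PL.four10x hM ha
  refine ⟨min c₁ c₂, lt_min hc1 hc2, ?_, ?_⟩
  · filter_upwards [h1] with N hN
    have e1 : min c₁ c₂ * (10 : ℝ) ^ N / N ≤ c₁ * ((10 : ℕ) : ℝ) ^ N / N := by
      push_cast
      apply div_le_div_of_nonneg_right _ (Nat.cast_nonneg N)
      exact mul_le_mul_of_nonneg_right (min_le_left _ _) (by positivity)
    refine e1.trans (hN.trans ?_)
    rw [Nat.cast_le]
    apply card_le_card
    intro n hn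
    rw [mem_filter] at hn ⊢
    refine ⟨hn.1, hn.2.1, hn.2.2.1, hn.2.2.2.1, hn.2.2.2.2.1, fun p hp => ?_⟩
    have e2 := hn.2.2.2.2.2 p hp
    rw [show (N : ℝ) / 13 = (1 / 13 : ℝ) * N by ring]
    exact_mod_cast e2
  · filter_upwards [h2, eventually_ge_atTop 1] with x hx hx1
    have hL : 0 ≤ Real.log x := Real.log_natCast_nonneg x
    have e1 : min c₁ c₂ * (((Icc 1 x).filter (fun n => (Nat.digits 10 n).reverse = Nat.digits 10 n)).card : ℝ) / Real.log x ≤
        c₂ * (((Icc 1 x).filter (fun n => (Nat.digits 10 n).reverse = Nat.digits 10 n)).card : ℝ) / Real.log x := by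
      apply div_le_div_of_nonneg_right _ hL
      exact mul_le_mul_of_nonneg_right (min_le_right _ _) (by positivity)
    refine e1.trans (hx _ ?_)
    intro n hn1 hn2 hn3 hn4 hn5
    exact mem_filter.2 ⟨hn1, hn2, hn3, hn4, hn5⟩

end Pool.Agent.Results.MP_540de1_nt.FourFactorsProgressions
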