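import Pool.Agent.Q26.PL.N

/-!
# Decimal palindromes with few prime factors in short intervals

Palindromes are the integers `n` with `(Nat.digits 10 n).reverse = Nat.digits 10 n`. The integers with `2 N + 1` decimal
digits whose first `e` digits form the integer `d` are those of the interval
`[d 10 ^ (2 N + 1 - e), (d + 1) 10 ^ (2 N + 1 - e))`; `10 ^ (N - e) * 10` of them are palindromes. Since the last digit
of a palindrome is equal to its leading digit, the leading digit `d / 10 ^ (e - 1)` must be prime to `10`.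
-/

set_option autoImplicit false

namespace Pool.Agent.Results.MP_540de1_nt.PrescribedLeadingDigits

open Finset Filter

open Classical in
/-- Let `0 < θ < 1` and `r ≥ 0.19 + 3.42 / (1 - θ)`. There is a `c > 0` such that for all large `N`, for all
`1 ≤ e ≤ θ N` and for every integer `d < 10 ^ e` whose leading digit `d / 10 ^ (e - 1)` is prime to `10`, at least
`c 10 ^ (N - e) / N` of the palindromes in the interval `[d 10 ^ (2 N + 1 - e), (d + 1) 10 ^ (2 N + 1 - e))` have at most
`r` prime factors counted with multiplicity, and all their prime factors are larger than `10 ^ ((1 - θ) N / 10)`. -/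
theorem result (θ : ℝ) (hθ0 : 0 < θ) (hθ1 : θ < 1) (r : ℕ) (hr : 19 / 100 + 342 / (100 * (1 - θ)) ≤ (r : ℝ)) :
    ∃ c : ℝ, 0 < c ∧ ∀ᶠ N : ℕ in atTop, ∀ e : ℕ, 1 ≤ e → (e : ℝ) ≤ θ * N → ∀ d : ℕ, d < 10 ^ e →
      (d / 10 ^ (e - 1)).Coprime 10 →
      c * (10 : ℝ) ^ (N - e) / N ≤ (((Ico (d * 10 ^ (2 * N + 1 - e)) ((d + 1) * 10 ^ (2 * N + 1 - e))).filter (fun n =>
        (Nat.digits 10 n).reverse = Nat.digits 10 n ∧ n.primeFactorsList.length ≤ r ∧
        ∀ p ∈ n.primeFactorsList, (10 : ℝ) ^ ((1 - θ) / 10 * N) < p)).card : ℝ) :=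
  Pool.Agent.Q26.PL.lead10 hθ0 hθ1 hr

end Pool.Agent.Results.MP_540de1_nt.PrescribedLeadingDigits
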