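import Pool.Agent.Q26.PL.G

/-!
# Decimal palindromes with at most three prime factors in every reduced residue class
-/

set_option autoImplicit false

namespace Pool.Agent.Results.MP_540de1_nt.ThreeFactorsProgressions

open Finset Filter

/-- Let `M ≥ 1` and let `a` be prime to `M`. For all large `N`, at least `8 ^ N` of the `n` with
`10^(2N) ≤ n < 10^(2N+1)` whose decimal digit sequence equals its own reverse are congruent to `a` modulo `M` and have at
most three prime factors counted with multiplicity, each of them larger than `10^(N/9)`. -/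
theorem result (M a : ℕ) (hM : 0 < M) (ha : a.Coprime M) :
    ∀ᶠ N : ℕ in atTop, 8 ^ N ≤ ((range (10 ^ (2 * N + 1))).filter (fun n => 10 ^ (2 * N) ≤ n ∧
    (Nat.digits 10 n).reverse = Nat.digits 10 n ∧ n ≡ a [MOD M] ∧ n.primeFactorsList.length ≤ 3 ∧
    ∀ p ∈ n.primeFactorsList, (10 : ℝ) ^ ((N : ℝ) / 9) < p)).card := by
  filter_upwards [Pool.Agent.Q26.PL.three10 hM ha] with N ⟨F, h1, h2⟩
  have h3 : 8 ^ N ≤ F.card := by exact_mod_cast h1
  refine h3.trans ?_
  apply card_le_card
  intro n hn
  obtain ⟨g1, g2, g3, g4, g5, g6⟩ := h2 n hn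
  rw [mem_filter, mem_range]
  refine ⟨g1, g2, g3, g4, g5, fun p hp => ?_⟩
  have h4 := g6 p hp
  have e : (((10 : ℕ) : ℝ)) ^ (1 / 9 * (N : ℝ)) = (10 : ℝ) ^ ((N : ℝ) / 9) := by
    push_cast
    congr 1
    ring
  rw [e] at h4
  exact h4

end Pool.Agent.Results.MP_540de1_nt.ThreeFactorsProgressions
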