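import Mathlib
import Pool.Agent.H476R2.Pal.BV2

/-!
# An explicit upper bound for the number of palindromic primes

For every `ε > 0` and all large `L` the number of palindromic primes with exactly `2 L + 1` decimal
digits is at most `20 / 3 + ε` times the expected number `5 * 10 ^ L / (L log 10)`. (There are
`4 * 10 ^ L` palindromes with `2 L + 1` digits which are coprime to `10`, and a number of this size
which is coprime to `10` is prime with probability about `(10 / 4) / (2 L log 10)`.)
-/

set_option autoImplicit false

namespace Pool.Agent.Results.MP_540de1_nt.UpperBoundTwentyThirds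

open Finset Filter Topology

theorem result (ε : ℝ) (hε : 0 < ε) : ∀ᶠ L : ℕ in atTop,
    (((range (10 ^ (2 * L + 1))).filter (fun n => 10 ^ (2 * L) ≤ n ∧
        (Nat.digits 10 n).reverse = Nat.digits 10 n ∧ n.Prime)).card : ℝ)
      ≤ (20 / 3 + ε) * (5 * 10 ^ L / (L * Real.log 10)) :=
  Pool.Agent.H476R2.Pal.primes_upper2 ε hε

end Pool.Agent.Results.MP_540de1_nt.UpperBoundTwentyThirds
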